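import Pool.Agent.L7h46.PM.Routeb
import Pool.Agent.L7h46.PM.Hook

/-! Project PM (planar metric), quantitative form: HOOKB. -/

set_option autoImplicit false

namespace Pool.Agent.L7h46.PM

open Pool.Agent.L7h49.PM

open Pool.Agent.L7h99.PM (mem_fat coord_le Bx pre_box mem_box)

/-- PART HOOKB. -/
theorem s_HOOKB (hcon : S_CONB) (hroute : S_ROUTEB) (hspl : S_SPL) : S_HOOKB := by
  intro V G f C D hR t X eta B i j hSt hD hij hnb
  have hC := hR.one
  have hC0 : 0 ≤ C := by linarith
  have hne : i ≠ j := by rintro rfl; exact lt_irrefl _ hij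
  have hXa : |X + 100 * C| ≤ |X| + 100 * C :=
    abs_le.2 ⟨by linarith [neg_abs_le X], by linarith [le_abs_self X]⟩
  obtain ⟨B', hBB, hSt', hloc, hmem⟩ := hroute V G f C D hR t X (X + 100 * C) eta eta B hSt
    (fun k => by linarith [hD k]) le_rfl
    (fun _ => le_rfl) (fun k l hkl => sep_cases (hSt.sep k l hkl))
  set A : Set E2 := Bx 0 (X + 40 * C) (X + 40 * C) (eta i) (eta j) with hA
  have hAi : pt (X + 40 * C) (eta i) ∈ A :=
    mem_box ⟨by linarith, by linarith, by linarith, by linarith⟩
  have hAj : pt (X + 40 * C) (eta j) ∈ A :=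
    mem_box ⟨by linarith, by linarith, by linarith, by linarith⟩
  have hAD : ∀ p ∈ A, ‖p‖ ≤ D := by
    rintro p ⟨a1, a2, a3, a4⟩
    have h0 : |p 0| ≤ |X| + 40 * C :=
      abs_le.2 ⟨by linarith [neg_abs_le X], by linarith [le_abs_self X]⟩
    have h1 : |p 1| ≤ |eta i| + |eta j| :=
      abs_between (a := eta i) (b := eta j) (by linarith) (by linarith)
    linarith [norm_le_abs p, hD i, hD j, abs_nonneg X]
  have hWc : (G.induce (Fat G f C A)).Connected :=
    (hcon V G f C D hR A hAD).1 (pre_box _ _ _ _ _) ⟨_, hAi⟩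
  have hWloc : ∀ w ∈ Fat G f C A, X + 34 * C ≤ f w 0 ∧ f w 0 ≤ X + 46 * C ∧
      eta i - 6 * C ≤ f w 1 ∧ f w 1 ≤ eta j + 6 * C := by
    intro w hw
    obtain ⟨p, ⟨a1, a2, a3, a4⟩, hpw⟩ := (hcon V G f C D hR A hAD).2 w hw
    have h0 := abs_le.1 (coord_le hpw 0)
    have h1 := abs_le.1 (coord_le hpw 1)
    exact ⟨by linarith [h0.1], by linarith [h0.2], by linarith [h1.1], by linarith [h1.2]⟩
  have hWi : (Fat G f C A ∩ B' i).Nonempty := by
    obtain ⟨w, hw⟩ := hR.net (pt (X + 40 * C) (eta i)) (hAD _ hAi)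
    exact ⟨w, mem_fat hC0 hAi hw.le, hmem i _ w (by linarith) (by linarith) hw.le⟩
  have hWj : (Fat G f C A ∩ B' j).Nonempty := by
    obtain ⟨w, hw⟩ := hR.net (pt (X + 40 * C) (eta j)) (hAD _ hAj)
    exact ⟨w, mem_fat hC0 hAj hw.le, hmem j _ w (by linarith) (by linarith) hw.le⟩
  obtain ⟨X0, hX0, hX0i, hX0c, u, hu, v, hv, huv⟩ := hspl V G (B' j) (B' i) (Fat G f C A) hWc hWj
    hWi (hSt'.disj j i hne.symm) (hSt'.conn j)
  have hX0l : ∀ l, l ≠ j → Disjoint X0 (B' l) := by
    intro l hlj
    by_cases hli : l = i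
    · rw [hli]; exact hX0i
    · rw [Set.disjoint_left]
      intro w hw hw'
      obtain ⟨w1, w2, w3, w4⟩ := hWloc w (hX0 hw)
      rcases hloc l w hw' with h | ⟨h1, h2⟩
      · have := (hSt.right l w h).1
        linarith
      · rcases hnb l hli hlj with h | h
        · rcases sep_cases (hSt.sep l i hli) with h' | h' <;> linarith
        · rcases sep_cases (hSt.sep l j hlj) with h' | h' <;> linarith
  refine ⟨fun k => if k = j then B' j ∪ X0 else B' k, ?_, ⟨?_, ?_, hSt'.sep, ?_, ?_⟩, v, ?_, u, ?_,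
    huv.symm⟩
  · intro k
    by_cases hk : k = j
    · rw [hk]
      simp only [if_true]
      exact (hBB j).trans Set.subset_union_left
    · simp only [hk, if_false]
      exact hBB k
  · intro k
    by_cases hk : k = j
    · have e : (if k = j then B' j ∪ X0 else B' k) = B' j ∪ X0 := if_pos hk
      rw [e]
      exact hX0c
    · have e : (if k = j then B' j ∪ X0 else B' k) = B' k := if_neg hk
      rw [e]
      exact hSt'.conn k
  · intro k l hkl
    by_cases hk : k = j
    · have hl : l ≠ j := fun h => hkl (hk.trans h.symm)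
      simp only [hk, hl, if_true, if_false]
      exact Disjoint.union_left (hSt'.disj j l hl.symm) (hX0l l hl)
    · by_cases hl : l = j
      · simp only [hk, hl, if_true, if_false]
        exact (Disjoint.union_left (hSt'.disj j k (fun h => hk h.symm)) (hX0l k hk)).symm
      · simp only [hk, hl, if_false]
        exact hSt'.disj k l hkl
  · intro k w hw
    by_cases hk : k = j
    · rw [hk] at hw ⊢
      simp only [if_true] at hw
      rcases hw with hw | hw
      · exact hSt'.right j w hw
      · obtain ⟨w1, w2, w3, w4⟩ := hWloc w (hX0 hw)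
        exact ⟨by linarith, fun hh => by exfalso; linarith⟩
    · simp only [hk, if_false] at hw
      exact hSt'.right k w hw
  · intro k w hw
    by_cases hk : k = j
    · rw [hk] at hw ⊢
      simp only [if_true]
      exact Or.inl (hSt'.endp j w hw)
    · simp only [hk, if_false]
      exact hSt'.endp k w hw
  · simp only [hne, if_false]
    exact hv
  · simp only [if_true]
    exact hu

end Pool.Agent.L7h46.PM
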