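import Pool.Agent.L7h49.PM.Def2

/-! Project PM (planar metric), second half: NEIGH. -/

set_option autoImplicit false

namespace Pool.Agent.L7h46.PM

open Pool.Agent.L7h49.PM

theorem st_ne {V : Type} {G : SimpleGraph V} {f : V → E2} {C X : ℝ} {t : ℕ} (hC : 1 ≤ C)
    {eta : Fin t → ℝ} {B : Fin t → Set V} (hSt : St G f C X eta B) {k l : Fin t} (h : k ≠ l) :
    eta k ≠ eta l := by
  intro he
  have := hSt.sep k l h
  rw [he, sub_self, abs_zero] at this
  linarith

theorem neigh_aux (hswap : S_SWAP) (hhook : S_HOOK) {V : Type} {G : SimpleGraph V} {f : V → E2}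
    {C : ℝ} (hR : Rough G f C) {t : ℕ} (i j : Fin t) (n : ℕ) :
    ∀ (X : ℝ) (eta : Fin t → ℝ) (B : Fin t → Set V), St G f C X eta B → eta i < eta j →
      (Finset.univ.filter (fun l => eta i < eta l ∧ eta l < eta j)).card ≤ n →
      ∃ (X' : ℝ) (eta' : Fin t → ℝ) (B' : Fin t → Set V), (∀ k, B k ⊆ B' k) ∧
        St G f C X' eta' B' ∧ ∃ u ∈ B' i, ∃ v ∈ B' j, G.Adj u v := by
  have hC := hR.one
  induction n with
  | zero =>
    intro X eta B hSt hij hcard
    have hemp : Finset.univ.filter (fun l => eta i < eta l ∧ eta l < eta j) = ∅ :=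
      Finset.card_eq_zero.1 (Nat.le_zero.1 hcard)
    obtain ⟨B', h1, h2, h3⟩ := hhook V G f C hR t X eta B i j hSt hij (by
      intro k hki hkj
      rcases lt_or_gt_of_ne (st_ne hC hSt hki) with h | h
      · exact Or.inl h
      · rcases lt_or_gt_of_ne (st_ne hC hSt hkj) with h' | h'
        · exfalso
          have : k ∈ Finset.univ.filter (fun l => eta i < eta l ∧ eta l < eta j) :=
            Finset.mem_filter.2 ⟨Finset.mem_univ _, h, h'⟩
          rw [hemp] at this
          exact Finset.notMem_empty _ this
        · exact Or.inr h')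
    exact ⟨_, _, B', h1, h2, h3⟩
  | succ n ih =>
    intro X eta B hSt hij hcard
    rcases (Finset.univ.filter (fun l => eta i < eta l ∧ eta l < eta j)).eq_empty_or_nonempty with
      he | hne
    · obtain ⟨B', h1, h2, h3⟩ := hhook V G f C hR t X eta B i j hSt hij (by
        intro k hki hkj
        rcases lt_or_gt_of_ne (st_ne hC hSt hki) with h | h
        · exact Or.inl h
        · rcases lt_or_gt_of_ne (st_ne hC hSt hkj) with h' | h'
          · exfalso
            have : k ∈ Finset.univ.filter (fun l => eta i < eta l ∧ eta l < eta j) :=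
              Finset.mem_filter.2 ⟨Finset.mem_univ _, h, h'⟩
            rw [he] at this
            exact Finset.notMem_empty _ this
          · exact Or.inr h')
      exact ⟨_, _, B', h1, h2, h3⟩
    · obtain ⟨k, hk, hmin⟩ := Finset.exists_min_image _ eta hne
      obtain ⟨-, hik, hkj⟩ := Finset.mem_filter.1 hk
      have hki' : k ≠ i := by rintro rfl; exact lt_irrefl _ hik
      have hkj' : k ≠ j := by rintro rfl; exact lt_irrefl _ hkj
      have hij' : i ≠ j := by rintro rfl; exact lt_irrefl _ hij
      obtain ⟨X', eta', B', hBB, hSt', e1, e2, e3, e4⟩ := hswap V G f C hR t X eta B i k hSt hik (by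
        intro l hli hlk
        rcases lt_or_gt_of_ne (st_ne hC hSt hli) with h | h
        · exact Or.inl h
        · rcases lt_or_gt_of_ne (st_ne hC hSt hlk) with h' | h'
          · exfalso
            have : l ∈ Finset.univ.filter (fun l => eta i < eta l ∧ eta l < eta j) :=
              Finset.mem_filter.2 ⟨Finset.mem_univ _, h, h'.trans hkj⟩
            have := hmin l this
            linarith
          · exact Or.inr h')
      have hij2 : eta' i < eta' j := e3 j hij'.symm hkj'.symm hkj
      obtain ⟨X'', eta'', B'', hBB', hSt'', hadj⟩ := ih X' eta' B' hSt' hij2 (by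
        have hsub : Finset.univ.filter (fun l => eta' i < eta' l ∧ eta' l < eta' j) ⊆
            (Finset.univ.filter (fun l => eta i < eta l ∧ eta l < eta j)).erase k := by
          intro l hl
          obtain ⟨-, h1, h2⟩ := Finset.mem_filter.1 hl
          have hlk : l ≠ k := by
            rintro rfl
            exact lt_asymm h1 e1
          have hli : l ≠ i := by
            rintro rfl
            exact lt_irrefl _ h1
          have hlj : l ≠ j := by
            rintro rfl
            exact lt_irrefl _ h2
          rw [Finset.mem_erase, Finset.mem_filter]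
          refine ⟨hlk, Finset.mem_univ _, ?_, ?_⟩
          · rcases lt_or_gt_of_ne (st_ne hC hSt hli) with h | h
            · exfalso
              have := e2 l hli hlk h
              linarith
            · exact h
          · rcases lt_or_gt_of_ne (st_ne hC hSt hlj) with h | h
            · exact h
            · exfalso
              have := e4 j l hij'.symm hkj'.symm hli hlk h
              linarith
        have h1 := Finset.card_le_card hsub
        rw [Finset.card_erase_of_mem hk] at h1
        omega)
      exact ⟨X'', eta'', B'', fun l => (hBB l).trans (hBB' l), hSt'', hadj⟩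

/-- PART NEIGH. -/
theorem s_NEIGH (hswap : S_SWAP) (hhook : S_HOOK) : S_NEIGH := by
  intro V G f C hR t X eta B i j hSt hij
  rcases lt_or_gt_of_ne (st_ne hR.one hSt hij) with h | h
  · exact neigh_aux hswap hhook hR i j _ X eta B hSt h le_rfl
  · obtain ⟨X', eta', B', h1, h2, u, hu, v, hv, huv⟩ :=
      neigh_aux hswap hhook hR j i _ X eta B hSt h le_rfl
    exact ⟨X', eta', B', h1, h2, v, hv, u, hu, huv.symm⟩

end Pool.Agent.L7h46.PM
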