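import Pool.Agent.L7h49.PM.Def5
import Pool.Agent.L7h46.PM.Neigh

/-! Project PM (planar metric), quantitative form: NEIGHB. -/

set_option autoImplicit false

namespace Pool.Agent.L7h46.PM

open Pool.Agent.L7h49.PM

theorem hook_end (hhook : S_HOOKB) {V : Type} {G : SimpleGraph V} {f : V → E2}
    {C D L : ℝ} (hR : RoughB G f C D) (hCL : 100 * C ≤ L) {t : ℕ} (i j : Fin t) (n : ℕ)
    (X M : ℝ) (eta : Fin t → ℝ) (B : Fin t → Set V) (hSt : St G f C X eta B) (hX : |X| ≤ M)
    (hM : ∀ k, |eta k| ≤ M) (hij : eta i < eta j)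
    (hnb : ∀ k, k ≠ i → k ≠ j → eta k < eta i ∨ eta j < eta k)
    (hD : 6 * (M + 2 * (n + 1) * L) + 20 * L ≤ D) :
    ∃ (X' : ℝ) (eta' : Fin t → ℝ) (B' : Fin t → Set V), (∀ k, B k ⊆ B' k) ∧
        St G f C X' eta' B' ∧ (∃ u ∈ B' i, ∃ v ∈ B' j, G.Adj u v) ∧
        |X'| ≤ M + 2 * (n + 1) * L ∧ ∀ k, |eta' k| ≤ M + 2 * (n + 1) * L := by
  have hC := hR.one
  have hL : 0 ≤ L := by linarith
  have hn : (0 : ℝ) ≤ n := Nat.cast_nonneg n
  have hnL : 0 ≤ n * L := mul_nonneg hn hL
  have hM0 : 0 ≤ M := le_trans (abs_nonneg _) hX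
  obtain ⟨B', h1, h2, h3⟩ := hhook V G f C D hR t X eta B i j hSt (fun k => by
    have := hM k
    nlinarith [abs_nonneg X, abs_nonneg (eta k)]) hij hnb
  refine ⟨X + 100 * C, eta, B', h1, h2, h3, ?_, ?_⟩
  · have h4 : |X + 100 * C| ≤ |X| + 100 * C :=
      abs_le.2 ⟨by linarith [neg_abs_le X], by linarith [le_abs_self X]⟩
    nlinarith
  · intro k
    have := hM k
    nlinarith

theorem neighb_aux (hswap : S_SWAPB) (hhook : S_HOOKB) {V : Type} {G : SimpleGraph V} {f : V → E2}
    {C D L : ℝ} (hR : RoughB G f C D) {t : ℕ} (hL1 : Real.exp (8000000 * C ^ 2) ≤ L)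
    (hL2 : 100 * (t + 5) * C ≤ L) (i j : Fin t) (n : ℕ) :
    ∀ (X M : ℝ) (eta : Fin t → ℝ) (B : Fin t → Set V), St G f C X eta B → |X| ≤ M →
      (∀ k, |eta k| ≤ M) → eta i < eta j →
      (Finset.univ.filter (fun l => eta i < eta l ∧ eta l < eta j)).card ≤ n →
      6 * (M + 2 * (n + 1) * L) + 20 * L ≤ D →
      ∃ (X' : ℝ) (eta' : Fin t → ℝ) (B' : Fin t → Set V), (∀ k, B k ⊆ B' k) ∧
        St G f C X' eta' B' ∧ (∃ u ∈ B' i, ∃ v ∈ B' j, G.Adj u v) ∧
        |X'| ≤ M + 2 * (n + 1) * L ∧ ∀ k, |eta' k| ≤ M + 2 * (n + 1) * L := by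
  have hC := hR.one
  have hCL : 100 * C ≤ L := by
    have ht : (0 : ℝ) ≤ t := Nat.cast_nonneg t
    have : 0 ≤ (t : ℝ) * C := mul_nonneg ht (by linarith)
    nlinarith
  have hL : 0 ≤ L := by linarith
  induction n with
  | zero =>
    intro X M eta B hSt hX hM hij hcard hD
    have hemp : Finset.univ.filter (fun l => eta i < eta l ∧ eta l < eta j) = ∅ :=
      Finset.card_eq_zero.1 (Nat.le_zero.1 hcard)
    exact hook_end hhook hR hCL i j 0 X M eta B hSt hX hM hij (by
      intro k hki hkj
      rcases lt_or_gt_of_ne (st_ne hC hSt hki) with h | h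
      · exact Or.inl h
      · rcases lt_or_gt_of_ne (st_ne hC hSt hkj) with h' | h'
        · exfalso
          have : k ∈ Finset.univ.filter (fun l => eta i < eta l ∧ eta l < eta j) :=
            Finset.mem_filter.2 ⟨Finset.mem_univ _, h, h'⟩
          rw [hemp] at this
          exact Finset.notMem_empty _ this
        · exact Or.inr h') hD
  | succ n ih =>
    intro X M eta B hSt hX hM hij hcard hD
    have hn : (0 : ℝ) ≤ n := Nat.cast_nonneg n
    have hnL : 0 ≤ n * L := mul_nonneg hn hL
    push_cast at hD ⊢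
    rcases (Finset.univ.filter (fun l => eta i < eta l ∧ eta l < eta j)).eq_empty_or_nonempty with
      he | hne
    · have := hook_end hhook hR hCL i j (n + 1) X M eta B hSt hX hM hij (by
        intro k hki hkj
        rcases lt_or_gt_of_ne (st_ne hC hSt hki) with h | h
        · exact Or.inl h
        · rcases lt_or_gt_of_ne (st_ne hC hSt hkj) with h' | h'
          · exfalso
            have : k ∈ Finset.univ.filter (fun l => eta i < eta l ∧ eta l < eta j) :=
              Finset.mem_filter.2 ⟨Finset.mem_univ _, h, h'⟩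
            rw [he] at this
            exact Finset.notMem_empty _ this
          · exact Or.inr h') (by push_cast; exact hD)
      push_cast at this
      exact this
    · obtain ⟨k, hk, hmin⟩ := Finset.exists_min_image _ eta hne
      obtain ⟨-, hik, hkj⟩ := Finset.mem_filter.1 hk
      have hki' : k ≠ i := by rintro rfl; exact lt_irrefl _ hik
      have hkj' : k ≠ j := by rintro rfl; exact lt_irrefl _ hkj
      have hij' : i ≠ j := by rintro rfl; exact lt_irrefl _ hij
      obtain ⟨X', eta', B', hBB, hSt', e1, e2, e3, e4, hX', hM'⟩ :=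
        hswap V G f C D hR t X M L eta B i k hSt hX hM hL1 hL2 (by nlinarith) hik (by
        intro l hli hlk
        rcases lt_or_gt_of_ne (st_ne hC hSt hli) with h | h
        · exact Or.inl h
        · rcases lt_or_gt_of_ne (st_ne hC hSt hlk) with h' | h'
          · exfalso
            have : l ∈ Finset.univ.filter (fun l => eta i < eta l ∧ eta l < eta j) :=
              Finset.mem_filter.2 ⟨Finset.mem_univ _, h, h'.trans hkj⟩
            have := hmin l this
            linarith
          · exact Or.inr h')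
      have hij2 : eta' i < eta' j := e3 j hij'.symm hkj'.symm hkj
      obtain ⟨X'', eta'', B'', hBB', hSt'', hadj, hX'', hM''⟩ :=
        ih X' (M + 2 * L) eta' B' hSt' hX' hM' hij2 (by
        have hsub : Finset.univ.filter (fun l => eta' i < eta' l ∧ eta' l < eta' j) ⊆
            (Finset.univ.filter (fun l => eta i < eta l ∧ eta l < eta j)).erase k := by
          intro l hl
          obtain ⟨-, h1, h2⟩ := Finset.mem_filter.1 hl
          have hlk : l ≠ k := by
            rintro rfl
            exact lt_asymm h1 e1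
          have hli : l ≠ i := by
            rintro rfl
            exact lt_irrefl _ h1
          have hlj : l ≠ j := by
            rintro rfl
            exact lt_irrefl _ h2
          rw [Finset.mem_erase, Finset.mem_filter]
          refine ⟨hlk, Finset.mem_univ _, ?_, ?_⟩
          · rcases lt_or_gt_of_ne (st_ne hC hSt hli) with h | h
            · exfalso
              have := e2 l hli hlk h
              linarith
            · exact h
          · rcases lt_or_gt_of_ne (st_ne hC hSt hlj) with h | h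
            · exact h
            · exfalso
              have := e4 j l hij'.symm hkj'.symm hli hlk h
              linarith
        have h1 := Finset.card_le_card hsub
        rw [Finset.card_erase_of_mem hk] at h1
        omega) (by nlinarith)
      refine ⟨X'', eta'', B'', fun l => (hBB l).trans (hBB' l), hSt'', hadj, ?_, fun l => ?_⟩
      · nlinarith
      · have := hM'' l
        nlinarith

/-- PART NEIGHB. -/
theorem s_NEIGHB (hswap : S_SWAPB) (hhook : S_HOOKB) : S_NEIGHB := by
  intro V G f C D hR t X M L eta B i j hSt hij hX hM hL1 hL2 hD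
  have hC := hR.one
  have hL : 0 ≤ L := le_trans (Real.exp_pos _).le hL1
  have key : ∀ i j : Fin t, eta i < eta j →
      ∃ (X' : ℝ) (eta' : Fin t → ℝ) (B' : Fin t → Set V), (∀ k, B k ⊆ B' k) ∧
        St G f C X' eta' B' ∧ (∃ u ∈ B' i, ∃ v ∈ B' j, G.Adj u v) ∧
        |X'| ≤ M + 2 * (t + 1) * L ∧ ∀ k, |eta' k| ≤ M + 2 * (t + 1) * L := by
    intro i j h
    exact neighb_aux hswap hhook hR hL1 hL2 i j t X M eta B hSt hX hM h
      ((Finset.card_le_univ _).trans (by rw [Fintype.card_fin])) hD
  rcases lt_or_gt_of_ne (st_ne hC hSt hij) with h | h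
  · exact key i j h
  · obtain ⟨X', eta', B', h1, h2, ⟨u, hu, v, hv, huv⟩, h3⟩ := key j i h
    exact ⟨X', eta', B', h1, h2, ⟨v, hv, u, hu, huv.symm⟩, h3⟩

end Pool.Agent.L7h46.PM
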