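import Pool.Agent.L7h49.PM.Def2
import Pool.Agent.L7h99.PM.Cross

/-! Project PM (planar metric), second half: ROUTE. -/

set_option autoImplicit false

namespace Pool.Agent.L7h46.PM

open Pool.Agent.L7h49.PM

open Pool.Agent.L7h99.PM (mem_fat coord_le Bx pre_box pre_three mem_box bx_mono0)

/-- the three boxes -/
def Rt (C X X' e e' : ℝ) : Set E2 :=
  Bx 0 X (X + 50 * C) e e ∪ (Bx 0 (X + 50 * C) (X + 50 * C) e e' ∪ Bx 0 (X + 50 * C) X' e' e')

theorem rt_pre {C X X' e e' : ℝ} (hC : 1 ≤ C) (hX : X + 100 * C ≤ X') (he : e ≤ e') :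
    IsPreconnected (Rt C X X' e e') := by
  apply pre_three (p := pt (X + 50 * C) e) (q := pt (X + 50 * C) e') (pre_box _ _ _ _ _)
    (pre_box _ _ _ _ _) (pre_box _ _ _ _ _)
  · exact mem_box ⟨by linarith, by linarith, by linarith, by linarith⟩
  · exact mem_box ⟨by linarith, by linarith, by linarith, by linarith⟩
  · exact mem_box ⟨by linarith, by linarith, by linarith, by linarith⟩
  · exact mem_box ⟨by linarith, by linarith, by linarith, by linarith⟩

theorem rt_left {C X X' e e' x : ℝ} (h1 : X ≤ x) (h2 : x ≤ X + 50 * C) :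
    pt x e ∈ Rt C X X' e e' :=
  Or.inl (mem_box ⟨by linarith, by linarith, by linarith, by linarith⟩)

theorem rt_right {C X X' e e' : ℝ} (hC : 1 ≤ C) (hX : X + 100 * C ≤ X') :
    pt X' e' ∈ Rt C X X' e e' :=
  Or.inr (Or.inr (mem_box ⟨by linarith, by linarith, by linarith, by linarith⟩))

/-- where the fattened route is -/
theorem rt_fat {V : Type} {G : SimpleGraph V} {f : V → E2} {C : ℝ} (hR : Rough G f C)
    (hcon : S_CON) {X X' e e' : ℝ} (hX : X + 100 * C ≤ X') (he : e ≤ e') {w : V}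
    (hw : w ∈ Fat G f C (Rt C X X' e e')) :
    X - 7 * C ≤ f w 0 ∧ (f w 0 ≤ X + 7 * C → |f w 1 - e| ≤ 30 * C) ∧
      f w 0 ≤ X' + 7 * C ∧ (X' - 7 * C ≤ f w 0 → |f w 1 - e'| ≤ 30 * C) ∧
      e - 6 * C ≤ f w 1 ∧ f w 1 ≤ e' + 6 * C := by
  have hC := hR.one
  obtain ⟨p, hp, hpw⟩ := (hcon V G f C hR (Rt C X X' e e')).2 w hw
  have h0 := abs_le.1 (coord_le hpw 0)
  have h1 := abs_le.1 (coord_le hpw 1)
  rcases hp with hp | hp | hp
  · obtain ⟨a1, a2, a3, a4⟩ := hp
    refine ⟨by linarith [h0.1], fun _ => ?_, by linarith [h0.2], fun hh => ?_, by linarith [h1.1],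
      by linarith [h1.2]⟩
    · rw [abs_le]; constructor <;> linarith [h1.1, h1.2]
    · exfalso; linarith [h0.2]
  · obtain ⟨a1, a2, a3, a4⟩ := hp
    refine ⟨by linarith [h0.1], fun hh => ?_, by linarith [h0.2], fun hh => ?_, by linarith [h1.1],
      by linarith [h1.2]⟩
    · exfalso; linarith [h0.1]
    · exfalso; linarith [h0.2]
  · obtain ⟨a1, a2, a3, a4⟩ := hp
    refine ⟨by linarith [h0.1], fun hh => ?_, by linarith [h0.2], fun hh => ?_, by linarith [h1.1],
      by linarith [h1.2]⟩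
    · exfalso; linarith [h0.1]
    · rw [abs_le]; constructor <;> linarith [h1.1, h1.2]

/-- PART ROUTE. -/
theorem s_ROUTE (hcon : S_CON) (hglue : S_GLUE) : S_ROUTE := by
  intro V G f C hR t X X' eta eta' B hSt hX hle hfar
  have hC := hR.one
  have hC0 : 0 ≤ C := by linarith
  have hglue' := hglue V G f C hR t X X' eta eta' B
    (fun k => Fat G f C (Rt C X X' (eta k) (eta' k))) hSt (by linarith) ?_ ?_ ?_ ?_ ?_ ?_
  · refine ⟨fun k => B k ∪ Fat G f C (Rt C X X' (eta k) (eta' k)), fun k => Set.subset_union_left,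
      hglue', ?_, ?_⟩
    · intro k w hw
      rcases hw with hw | hw
      · exact Or.inl hw
      · obtain ⟨_, _, _, _, h5, h6⟩ := rt_fat hR hcon hX (hle k) hw
        exact Or.inr ⟨h5, h6⟩
    · intro k x w hx1 hx2 hw
      exact Or.inr (mem_fat hC0 (rt_left hx1 hx2) hw)
  · intro k l hkl
    rcases hfar k l hkl with h | h
    · have := hle l
      rw [abs_sub_comm]
      exact le_trans (by linarith) (le_abs_self _)
    · have := hle k
      exact le_trans (by linarith) (le_abs_self _)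
  · intro k
    exact (hcon V G f C hR (Rt C X X' (eta k) (eta' k))).1 (rt_pre hC hX (hle k))
      ⟨_, rt_right hC hX⟩
  · intro k l hkl
    rw [Set.disjoint_left]
    intro w hw hw'
    obtain ⟨_, _, _, _, h5, h6⟩ := rt_fat hR hcon hX (hle k) hw
    obtain ⟨_, _, _, _, g5, g6⟩ := rt_fat hR hcon hX (hle l) hw'
    rcases hfar k l hkl with h | h <;> linarith
  · intro k w hw
    obtain ⟨h1, h2, h3, h4, _, _⟩ := rt_fat hR hcon hX (hle k) hw
    exact ⟨h1, h2, h3, h4⟩
  · intro k w hw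
    exact mem_fat hC0 (rt_left le_rfl (by linarith)) hw
  · intro k w hw
    exact mem_fat hC0 (rt_right hC hX) hw

end Pool.Agent.L7h46.PM
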