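import Pool.Agent.L7h49.PM.Def5
import Pool.Agent.L7h46.PM.Route

/-! Project PM (planar metric), quantitative form: ROUTEB. -/

set_option autoImplicit false

namespace Pool.Agent.L7h46.PM

open Pool.Agent.L7h49.PM

open Pool.Agent.L7h99.PM (mem_fat coord_le Bx pre_box pre_three mem_box bx_mono0)

theorem norm_le_abs (p : E2) : ‖p‖ ≤ |p 0| + |p 1| := by
  rw [EuclideanSpace.norm_eq, Fin.sum_univ_two, Real.norm_eq_abs, Real.norm_eq_abs, sq_abs, sq_abs]
  apply Real.sqrt_le_iff.2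
  constructor
  · positivity
  · have h0 := abs_nonneg (p 0)
    have h1 := abs_nonneg (p 1)
    have e0 := sq_abs (p 0)
    have e1 := sq_abs (p 1)
    nlinarith [mul_nonneg h0 h1]

theorem abs_between {a b x : ℝ} (h1 : a ≤ x) (h2 : x ≤ b) : |x| ≤ |a| + |b| :=
  abs_le.2 ⟨by linarith [neg_abs_le a, abs_nonneg b], by linarith [le_abs_self b, abs_nonneg a]⟩

/-- the route is in the disc -/
theorem rt_disc {C D X X' e e' : ℝ} (hC : 1 ≤ C) (hX : X + 100 * C ≤ X') (he : e ≤ e')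
    (hD : |X| + |X'| + |e| + |e'| ≤ D) {p : E2} (hp : p ∈ Rt C X X' e e') : ‖p‖ ≤ D := by
  have h : X ≤ p 0 ∧ p 0 ≤ X' ∧ e ≤ p 1 ∧ p 1 ≤ e' := by
    rcases hp with hp | hp | hp <;> obtain ⟨a1, a2, a3, a4⟩ := hp <;>
      exact ⟨by linarith, by linarith, by linarith, by linarith⟩
  have h0 := abs_between h.1 h.2.1
  have h1 := abs_between h.2.2.1 h.2.2.2
  linarith [norm_le_abs p]

/-- where the fattened route is -/
theorem rt_fatb {V : Type} {G : SimpleGraph V} {f : V → E2} {C D : ℝ} (hR : RoughB G f C D)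
    (hcon : S_CONB) {X X' e e' : ℝ} (hX : X + 100 * C ≤ X') (he : e ≤ e')
    (hD : |X| + |X'| + |e| + |e'| ≤ D) {w : V} (hw : w ∈ Fat G f C (Rt C X X' e e')) :
    X - 7 * C ≤ f w 0 ∧ (f w 0 ≤ X + 7 * C → |f w 1 - e| ≤ 30 * C) ∧
      f w 0 ≤ X' + 7 * C ∧ (X' - 7 * C ≤ f w 0 → |f w 1 - e'| ≤ 30 * C) ∧
      e - 6 * C ≤ f w 1 ∧ f w 1 ≤ e' + 6 * C := by
  have hC := hR.one
  obtain ⟨p, hp, hpw⟩ := (hcon V G f C D hR (Rt C X X' e e')
    (fun p hp => rt_disc hC hX he hD hp)).2 w hw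
  have h0 := abs_le.1 (coord_le hpw 0)
  have h1 := abs_le.1 (coord_le hpw 1)
  rcases hp with hp | hp | hp
  · obtain ⟨a1, a2, a3, a4⟩ := hp
    refine ⟨by linarith [h0.1], fun _ => ?_, by linarith [h0.2], fun hh => ?_, by linarith [h1.1],
      by linarith [h1.2]⟩
    · rw [abs_le]; constructor <;> linarith [h1.1, h1.2]
    · exfalso; linarith [h0.2]
  · obtain ⟨a1, a2, a3, a4⟩ := hp
    refine ⟨by linarith [h0.1], fun hh => ?_, by linarith [h0.2], fun hh => ?_, by linarith [h1.1],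
      by linarith [h1.2]⟩
    · exfalso; linarith [h0.1]
    · exfalso; linarith [h0.2]
  · obtain ⟨a1, a2, a3, a4⟩ := hp
    refine ⟨by linarith [h0.1], fun hh => ?_, by linarith [h0.2], fun hh => ?_, by linarith [h1.1],
      by linarith [h1.2]⟩
    · exfalso; linarith [h0.1]
    · rw [abs_le]; constructor <;> linarith [h1.1, h1.2]

/-- PART ROUTEB. -/
theorem s_ROUTEB (hcon : S_CONB) (hglue : S_GLUEB) : S_ROUTEB := by
  intro V G f C D hR t X X' eta eta' B hSt hD hX hle hfar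
  have hC := hR.one
  have hC0 : 0 ≤ C := by linarith
  have hglue' := hglue V G f C D hR t X X' eta eta' B
    (fun k => Fat G f C (Rt C X X' (eta k) (eta' k))) hSt
    (fun k => by linarith [hD k, abs_nonneg X', abs_nonneg (eta' k)]) (by linarith) ?_ ?_ ?_ ?_ ?_ ?_
  · refine ⟨fun k => B k ∪ Fat G f C (Rt C X X' (eta k) (eta' k)), fun k => Set.subset_union_left,
      hglue', ?_, ?_⟩
    · intro k w hw
      rcases hw with hw | hw
      · exact Or.inl hw
      · obtain ⟨_, _, _, _, h5, h6⟩ := rt_fatb hR hcon hX (hle k) (hD k) hw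
        exact Or.inr ⟨h5, h6⟩
    · intro k x w hx1 hx2 hw
      exact Or.inr (mem_fat hC0 (rt_left hx1 hx2) hw)
  · intro k l hkl
    rcases hfar k l hkl with h | h
    · have := hle l
      rw [abs_sub_comm]
      exact le_trans (by linarith) (le_abs_self _)
    · have := hle k
      exact le_trans (by linarith) (le_abs_self _)
  · intro k
    exact (hcon V G f C D hR (Rt C X X' (eta k) (eta' k))
      (fun p hp => rt_disc hC hX (hle k) (hD k) hp)).1 (rt_pre hC hX (hle k)) ⟨_, rt_right hC hX⟩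
  · intro k l hkl
    rw [Set.disjoint_left]
    intro w hw hw'
    obtain ⟨_, _, _, _, h5, h6⟩ := rt_fatb hR hcon hX (hle k) (hD k) hw
    obtain ⟨_, _, _, _, g5, g6⟩ := rt_fatb hR hcon hX (hle l) (hD l) hw'
    rcases hfar k l hkl with h | h <;> linarith
  · intro k w hw
    obtain ⟨h1, h2, h3, h4, _, _⟩ := rt_fatb hR hcon hX (hle k) (hD k) hw
    exact ⟨h1, h2, h3, h4⟩
  · intro k w hw
    exact mem_fat hC0 (rt_left le_rfl (by linarith)) hw
  · intro k w hw
    exact mem_fat hC0 (rt_right hC hX) hw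

end Pool.Agent.L7h46.PM
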